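import Pool.Agent.Helper87.VM.Stmts
import Pool.Agent.Helper87.VM.Lib2

/-!
Existence of the forms `F` (module FDEX for `MP_39dd1a_ag`).
-/

set_option autoImplicit false

namespace Pool.Agent.Helper87.VM

open MvPolynomial Pool.Agent.Helper48.VMRT

section FDEX

variable {w : ℕ} {Z : Set (Fin w → ℂ)}

/-- The zero set of the ideal `AI Z`. -/
def fdexS (Z : Set (Fin w → ℂ)) : Set (Option (Fin w) → ℂ) :=
  {x | x none = 0 ∧ (fun i => x (some i)) ∈ Z}

theorem fdex_mem {p : MvPolynomial (Option (Fin w)) ℂ} :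
    p ∈ AI Z ↔ ∀ x : Option (Fin w) → ℂ, x none = 0 → (fun i => x (some i)) ∈ Z →
      eval x p = 0 := by
  constructor
  · intro h x h1 h2
    exact mem_vI.1 h x ⟨h1, h2⟩
  · intro h
    exact mem_vI.2 fun x hx => h x hx.1 hx.2

theorem fdex_closed (hZ : ZClosed Z) : ZClosed (fdexS Z) := by
  refine zclosed_of_eqs
    ({X none} ∪ {q | ∃ p ∈ vanishingIdeal ℂ Z, q = rename some p}) fun x => ?_
  constructor
  · rintro ⟨h1, h2⟩ p hp
    rcases hp with hp | ⟨q, hq, rfl⟩
    · rw [Set.mem_singleton_iff] at hp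
      rw [hp, eval_X, h1]
    · rw [eval_rename]
      exact mem_vI.1 hq _ h2
  · intro h
    refine ⟨?_, zclosed_iff.1 hZ _ fun p hp => ?_⟩
    · have := h (X none) (Or.inl rfl)
      rwa [eval_X] at this
    · have := h (rename some p) (Or.inr ⟨p, hp, rfl⟩)
      rwa [eval_rename] at this

theorem fdex_cone (hc : ∀ a : ℂ, ∀ z ∈ Z, a • z ∈ Z) :
    ∀ a : ℂ, ∀ x ∈ fdexS Z, a • x ∈ fdexS Z := by
  rintro a x ⟨h1, h2⟩
  refine ⟨?_, ?_⟩
  · rw [Pi.smul_apply, h1, smul_zero]
  · exact hc a _ h2

/-- The ideal is generated by its forms of bounded degree. -/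
theorem fdex_gen (hc : ∀ a : ℂ, ∀ z ∈ Z, a • z ∈ Z) :
    ∃ a : ℕ, 2 ≤ a ∧ AI Z = Ideal.span {p | p ∈ AI Z ∧ ∃ d ≤ a, HomE d p} := by
  classical
  obtain ⟨s, hs⟩ := (isNoetherianRing_iff_ideal_fg _).1
    (inferInstance : IsNoetherianRing (MvPolynomial (Option (Fin w)) ℂ)) (AI Z)
  refine ⟨max 2 (s.sup totalDegree), le_max_left _ _, le_antisymm ?_ ?_⟩
  · intro p hp
    rw [← hs] at hp
    refine (Ideal.span_le.2 ?_) hp
    intro q hq
    have hqA : q ∈ AI Z := by
      rw [← hs]; exact Ideal.subset_span hq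
    have hqs : q ∈ s := hq
    rw [SetLike.mem_coe, ← sum_homogeneousComponent q]
    refine Ideal.sum_mem _ fun j hj => Ideal.subset_span ⟨?_, j, ?_, ?_⟩
    · exact homogeneousComponent_mem_vI (fdex_cone hc) hqA j
    · have h1 : j ≤ q.totalDegree := by
        rw [Finset.mem_range] at hj; omega
      exact h1.trans ((Finset.le_sup (f := totalDegree) hqs).trans (le_max_right _ _))
    · exact homE_of_isHomogeneous (homogeneousComponent_isHomogeneous j q)
  · exact Ideal.span_le.2 fun p hp => hp.1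

/-- The space of forms of degree `a` in the ideal. -/
noncomputable def fdexV (Z : Set (Fin w → ℂ)) (a : ℕ) :
    Submodule ℂ (MvPolynomial (Option (Fin w)) ℂ) :=
  homogeneousSubmodule (Option (Fin w)) ℂ a ⊓ (AI Z).restrictScalars ℂ

theorem fdex_memV {a : ℕ} {p : MvPolynomial (Option (Fin w)) ℂ} :
    p ∈ fdexV Z a ↔ HomE a p ∧ p ∈ AI Z := by
  rw [fdexV, Submodule.mem_inf, mem_homogeneousSubmodule, homE_iff,
    Submodule.restrictScalars_mem]

theorem fdex_fin (Z : Set (Fin w → ℂ)) (a : ℕ) : Module.Finite ℂ (fdexV Z a) := by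
  have h : (homogeneousSubmodule (Option (Fin w)) ℂ a).FG := homogeneousSubmodule_fg _ _ _
  have h1 : Module.Finite ℂ (homogeneousSubmodule (Option (Fin w)) ℂ a) :=
    Module.Finite.iff_fg.2 h
  exact Submodule.finiteDimensional_of_le (inf_le_left)

end FDEX

theorem st_FDEX (hFLOC : ST_FLOC) : ST_FDEX := by
  classical
  intro G _ _ w Z ρ hZ hc hne hsm hρ
  obtain ⟨a, ha2, hgen⟩ := fdex_gen hc
  have hfin := fdex_fin Z a
  set n := Module.finrank ℂ (fdexV Z a) with hn
  let b := Module.finBasis ℂ (fdexV Z a)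
  let F : Fin n → MvPolynomial (Option (Fin w)) ℂ := fun j => (b j : MvPolynomial _ ℂ)
  have hFV : ∀ j, HomE a (F j) ∧ F j ∈ AI Z := fun j => fdex_memV.1 (b j).2
  have hspan : ∀ p, p ∈ AI Z → HomE a p → ∃ c : Fin n → ℂ, p = ∑ j, c j • F j := by
    intro p hp hh
    have hpV : p ∈ fdexV Z a := fdex_memV.2 ⟨hh, hp⟩
    refine ⟨fun j => b.repr ⟨p, hpV⟩ j, ?_⟩
    have h1 := congrArg (fun q : fdexV Z a => (q : MvPolynomial (Option (Fin w)) ℂ))
      (b.sum_repr ⟨p, hpV⟩)
    simp only [Submodule.coe_sum, Submodule.coe_smul] at h1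
    exact h1.symm
  have hspan' : ∀ p, p ∈ AI Z → HomE a p → p ∈ Submodule.span ℂ (Set.range F) := by
    intro p hp hh
    obtain ⟨c, rfl⟩ := hspan p hp hh
    exact Submodule.sum_mem _ fun j _ => Submodule.smul_mem _ _
      (Submodule.subset_span (Set.mem_range_self j))
  have hli : LinearIndependent ℂ F := by
    have h1 := b.linearIndependent.map' (fdexV Z a).subtype (Submodule.ker_subtype _)
    exact h1
  have huniq : ∀ c d : Fin n → ℂ,
      (∀ x, ∑ k, c k * eval x (F k) = ∑ k, d k * eval x (F k)) → c = d := by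
    intro c d h
    have h1 : ∑ k, (c k - d k) • F k = 0 := by
      apply MvPolynomial.funext
      intro x
      rw [map_zero, map_sum]
      have h2 : ∀ k, eval x ((c k - d k) • F k) = c k * eval x (F k) - d k * eval x (F k) := by
        intro k
        rw [smul_eval]; ring
      rw [Finset.sum_congr rfl fun k _ => h2 k, Finset.sum_sub_distrib, h x, sub_self]
    funext k
    have h2 := Fintype.linearIndependent_iff.1 hli _ h1 k
    exact sub_eq_zero.1 h2
  -- the action
  have hex : ∀ g : G, ∃ M : Matrix (Fin n) (Fin n) ℂ, ∀ x j,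
      eval (oext ρ g x) (F j) = ∑ k, M j k * eval x (F k) := by
    intro g
    have h1 : ∀ j, ∃ c : Fin n → ℂ, pull (oext ρ g) (F j) = ∑ k, c k • F k := by
      intro j
      refine hspan _ ?_ (homE_pull _ (hFV j).1)
      rw [fdex_mem]
      intro x hx1 hx2
      rw [eval_pull]
      exact fdex_mem.1 (hFV j).2 _ hx1 (hρ g _ hx2)
    choose M hM using h1
    refine ⟨M, fun x j => ?_⟩
    rw [← eval_pull, hM j, map_sum]
    exact Finset.sum_congr rfl fun k _ => by rw [smul_eval]
  choose M hM using hex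
  have hM1 : M 1 = 1 := by
    funext j
    refine huniq _ _ fun x => ?_
    rw [← hM 1 x j, map_one]
    simp only [Module.End.one_apply, Matrix.one_apply, ite_mul, one_mul, zero_mul,
      Finset.sum_ite_eq, Finset.mem_univ, if_true]
  have hMm : ∀ g h, M (g * h) = M g * M h := by
    intro g h
    funext j
    refine huniq _ _ fun x => ?_
    rw [← hM (g * h) x j, map_mul, Module.End.mul_apply, hM g]
    simp only [Matrix.mul_apply, Finset.sum_mul]
    rw [Finset.sum_comm]
    refine Finset.sum_congr rfl fun k _ => ?_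
    rw [hM h, Finset.mul_sum]
    exact Finset.sum_congr rfl fun l _ => by ring
  let ρν : G →* ((Fin n → ℂ) →ₗ[ℂ] (Fin n → ℂ)) :=
    { toFun := fun g => Matrix.toLin' (M g)
      map_one' := by rw [hM1, Matrix.toLin'_one]; rfl
      map_mul' := fun g h => by rw [hMm, Matrix.toLin'_mul]; rfl }
  refine ⟨Fin n, inferInstance, inferInstance, a, F, ρν, ?_⟩
  refine ⟨ha2, fun j => (hFV j).1, ?_, ?_, ?_, ?_⟩
  · intro x
    constructor
    · intro hx
      by_cases hx0 : x = 0
      · subst hx0
        obtain ⟨z, hz⟩ := hne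
        have h0 := hc 0 z hz
        rw [zero_smul] at h0
        exact ⟨rfl, h0⟩
      · obtain ⟨o, ho⟩ := Function.ne_iff.1 hx0
        have key : ∀ p ∈ AI Z, eval x p = 0 := by
          intro p hp
          rw [hgen] at hp
          have hle : Ideal.span {p | p ∈ AI Z ∧ ∃ d ≤ a, HomE d p} ≤
              RingHom.ker (eval x : MvPolynomial (Option (Fin w)) ℂ →+* ℂ) := by
            refine Ideal.span_le.2 ?_
            rintro q ⟨hq, d, hd, hqd⟩
            rw [SetLike.mem_coe, RingHom.mem_ker]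
            have h1 : HomE a (X o ^ (a - d) * q) := by
              have := ((homE_X o).pow (a - d)).mul hqd
              rwa [one_mul, Nat.sub_add_cancel hd] at this
            obtain ⟨c, hcc⟩ := hspan _ (Ideal.mul_mem_left _ _ hq) h1
            have h2 := congrArg (eval x) hcc
            rw [map_sum, Finset.sum_eq_zero (fun j _ => by rw [smul_eval, hx j, mul_zero]),
              map_mul, map_pow, eval_X] at h2
            exact (mul_eq_zero.1 h2).resolve_left (pow_ne_zero _ ho)
          exact hle hp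
        exact zclosed_iff.1 (fdex_closed hZ) x key
    · rintro ⟨h1, h2⟩ j
      exact fdex_mem.1 (hFV j).2 x h1 h2
  · intro g x
    funext j
    show eval (oext ρ g x) (F j) = Matrix.toLin' (M g) (ev F x) j
    rw [hM g x j, Matrix.toLin'_apply]
    rfl
  · intro m hm
    refine hspan' _ ?_ ?_
    · rw [fdex_mem]
      intro x hx _
      rw [map_mul, eval_X, hx, zero_mul]
    · have := (homE_X (none : Option (Fin w))).mul hm
      rwa [show 1 + (a - 1) = a by omega] at this
  · exact hFLOC (Fin n) w Z a F hZ hc hsm (fun j => (hFV j).2) (fun j => (hFV j).1) hspan' hgen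

end Pool.Agent.Helper87.VM
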